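import Pool.Agent.J4H50.YZ.Defs

set_option autoImplicit false

/-! # Project YZ: exact statements -/

namespace Pool.Agent.J4H50.YZ

open Pool.Agent.N103 Pool.Agent.W574.SM Pool.Agent.W574.MO Pool.Agent.J4H46.MS Pool.Agent.J4H46.MT
open Pool.Agent.J4H50.TF Pool.Agent.J4H50.YO

open scoped Polynomial PowerSeries
open PowerSeries (C coeff X)

/-- the pairs `(a, n)` such that there is a de Rham functional with the value `1` at `- n / a` -/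
def KN {σ : Type} (f : MvPowerSeries σ ℂ) (a n : ℕ) : Prop := NV f (-(n : ℂ) / a) ∧ Sing f

/-- `𝓩 = 𝓡 + ρ`, such that `𝓡`, `σ = (1 - L⁻¹ T) ρ` and `δ = (1 - tot 𝓩) / (1 - T) - ρ` only have the
denominators `1 - L⁻ⁿ Tᵃ` with `K a n` (compare `SGood` in `J4H46/MS/Good.lean`) -/
def DecE {M E : Type} [CommRing M] [CommRing E] [Algebra M E] {L : Mˣ} (S : CSys M E L)
    (K : ℕ → ℕ → Prop) (Z : E⟦X⟧) : Prop :=
  ∃ (R : E⟦X⟧) (ρ : M⟦X⟧), Z = R + PowerSeries.map (algebraMap M E) ρ ∧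
    R ∈ DenRing (LE L) K ∧ (1 - qq L 1 1) * ρ ∈ DenRing L K ∧
    gtr (cm S.tot Z) - ρ ∈ DenRing L K

/-- (Z1) the Thom-Sebastiani sum: copy of the field `dec` of `good_sum` in `J4H46/MT/Sum.lean` (only `hK`
is changed: it is the hypothesis; `S.mon.tot` is `S.tot`). -/
def S_Z1 : Prop := ∀ {M E : Type} [CommRing M] [CommRing E] [Algebra M E] {L : Mˣ}
  (S : CSys M E L) (K K' K'' : ℕ → ℕ → Prop) (Z Z' : E⟦X⟧),
  (∀ a n b m, 1 ≤ a → 1 ≤ n → 1 ≤ b → 1 ≤ m → K a n → K' b m → K'' (b * a) (b * n + a * m)) →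
  DecE S K Z → DecE S K' Z' → DecE S K'' (tsm S.toTSys Z Z')

/-- (Z2) semi-weighted-homogeneous germs: copy of `swA_mem`, `swV_mem`, and of the field `dec` of
`good_swh` in `J4H46/MT/Cls.lean` (now any finite type `σ`, and any `po`). -/
def S_Z2 : Prop := ∀ {M E : Type} [CommRing M] [CommRing E] [Algebra M E] {L : Mˣ}
  (S : CSys M E L) {σ : Type} [Fintype σ] [Nonempty σ] (w : σ → ℕ) (D : ℕ), (∀ i, 0 < w i) →
  0 < D → ∀ (po : Finset σ → E) (K : ℕ → ℕ → Prop), K D (∑ i, w i) → DecE S K (swZE S w D po)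

/-- (Z3) sections of series with given denominators: with `w = L⁻ᵐ Tᵃ`,
`1 / (1 - w) = (1 + w + ⋯ + w ^ (k - 1)) / (1 - w ^ k)`, and `1 / (1 - w ^ k)` is a series in `T ^ k`. The series
`∑_{r < k} T ^ r Y_r(T ^ k)` with `Y_r ∈ DenRing L K'` are a subring which contains the constants, `T`
and all `1 / (1 - w)`; then substitute `T ^ k ↦ L⁻ⁿ T ^ D`: `1 - L^(- k m) T ^ (k a)` becomes
`1 - L^(- k m - n a) T ^ (D a)`. -/
def S_Z3 : Prop := ∀ {A : Type} [CommRing A] (L : Aˣ) (n D k r : ℕ), 1 ≤ n → 1 ≤ D → 1 ≤ k → r < k →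
  ∀ (K K' : ℕ → ℕ → Prop), (∀ a m, 1 ≤ a → 1 ≤ m → K a m → K' (D * a) (k * m + n * a)) →
  ∀ x : A⟦X⟧, x ∈ DenRing L K → sb L n D (sec k r x) ∈ DenRing L K'

/-- (Z4) the contribution of one point of the tangent cone. Let `Z = R + ρ`, `σ = (1 - L⁻¹ T) ρ`,
`δ = (1 - tot Z) / (1 - T) - ρ`, so that `(1 - T) δ + tot R + L σ = 1` (*). Let `q = L⁻ⁿ Tᵈ`, `q / (1 - q) = qf L d n`,
`Th = ∑_r T ^ r sb (sec r)`, `Sc = sb (sec 0)`, `λ = zr(u ^ k, Sc R)`. Then `ptM = R' + ρ'` with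

`R' = pc (d + k) (Sc δ - 1) + q / (1 - q) mu(pc d, Th R) + cz(Sc R)`,
`ρ' = (L - 1) q / (1 - q) Th ρ + (L - 1) Sc ρ (1 + qf L 1 1) + λ qf L 1 1`,

because `mu(x, ρ) = tot(x) ρ`, `cz(ρ) = ρ ((L - 1) - pc (d + k))`, `zr(u ^ k, ρ) = (L - 1) ρ`. Moreover

`(1 - L⁻¹ T) ρ' = (L - 1) (q / (1 - q) Th σ + Sc σ) + L⁻¹ T λ`,
`tot R' + L (1 - L⁻¹ T) ρ' = (L - 1) q / (1 - q) (1 - (1 - T) Th δ) - (1 - T) λ`.

Both follow from (with `Sc' x = sb (sec (k - 1) x)`)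
`Th(T x) = T Th(x) - T (1 - q) Sc' x`, `Sc(T x) = T q Sc' x`, `Th 1 = Sc 1 = 1`, from (*), and from
`tot cz(x) = (L - 1) tot x - zr(u ^ k, x)`, `tot mu(pc d, x) = (L - 1) tot x`. -/
def S_Z4 : Prop := ∀ {M E : Type} [CommRing M] [CommRing E] [Algebra M E] {L : Mˣ}
  (S : CSys M E L) (n d k : ℕ), 1 ≤ n → 1 ≤ d → 1 ≤ k → ∀ (R : E⟦X⟧) (ρ : M⟦X⟧) (Z : E⟦X⟧),
  Z = R + PowerSeries.map (algebraMap M E) ρ → ∀ δ : M⟦X⟧, δ = gtr (cm S.tot Z) - ρ →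
  ∀ lam : M⟦X⟧, lam = cm (S.zr (S.pc k)) (Sc (LE L) n d k R) →
  ∀ R' : E⟦X⟧, R' = C (S.pc (d + k)) * PowerSeries.map (algebraMap M E) (Sc L n d k δ - 1)
      + qf (LE L) d n * cm (S.mu (S.pc d)) (Th (LE L) n d k R) + cm (S.cz d k) (Sc (LE L) n d k R) →
  ∃ ρ' : M⟦X⟧, ptM S n d k Z = R' + PowerSeries.map (algebraMap M E) ρ' ∧
    (1 - qq L 1 1) * ρ' = C ((L : M) - 1) * (qf L d n * Th L n d k ((1 - qq L 1 1) * ρ) +
      Sc L n d k ((1 - qq L 1 1) * ρ)) + qq L 1 1 * lam ∧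
    cm S.tot R' + C (L : M) * ((1 - qq L 1 1) * ρ') =
      C ((L : M) - 1) * (qf L d n * (1 - (1 - X) * Th L n d k δ)) - (1 - X) * lam

/-- (Z5) the cone, from (Z3) and (Z4). With `Z_i = R_i + ρ_i`, ... as in (Z4) at the point `i`, and
`b = ∑_{j<n} L ^ j - A - #ι`: the decomposition of `coneM` is
`R = B qf L d n + ∑ R'_i`, `ρ = b (L - 1) qf L d n qf L 1 1 + ∑ ρ'_i`,
`(1 - L⁻¹ T) ρ = b (L - 1) qf L d n L⁻¹ T + ∑ (1 - L⁻¹ T) ρ'_i`,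
`δ = (1 + T + ⋯ + T^(d-1)) / (1 - q) + (L - 1) q / (1 - q) (b + ∑ Th δ_i) + ∑ λ_i`.
For the last one multiply by `1 - T`: `(1 - T) δ = 1 - tot R - L (1 - L⁻¹ T) ρ` (always), and
`(L - 1) (A + b + #ι) = L ^ n - 1`, `L ^ n q = T ^ d`, `tot B = (L - 1) A`. -/
def S_Z5 : Prop := ∀ {M E : Type} [CommRing M] [CommRing E] [Algebra M E] {L : Mˣ}
  (S : CSys M E L) {ι : Type} [Fintype ι] (n d : ℕ), 1 ≤ n → 1 ≤ d → ∀ (B : E) (A : M),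
  S.tot B = ((L : M) - 1) * A → ∀ (k : ι → ℕ), (∀ i, 1 ≤ k i) → ∀ (Z : ι → E⟦X⟧)
  (K : ι → ℕ → ℕ → Prop) (K' : ℕ → ℕ → Prop), K' d n →
  (∀ i a m, 1 ≤ a → 1 ≤ m → K i a m → K' ((d + k i) * a) (k i * m + n * a)) →
  (∀ i, DecE S (K i) (Z i)) → DecE S K' (coneM S n d B A k Z)

end Pool.Agent.J4H50.YZ
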