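import Pool.Agent.J4H50.YO.Defs
import Pool.Agent.J4H46.MT.TDefs

set_option autoImplicit false

/-! # The monodromic motivic zeta functions of germs with a given tangent cone

For a germ `f` in `n` variables let `X_m` be the space of the arcs `φ` at the origin, modulo `t^(m+1)`,
with `f(φ) = c tᵐ + ⋯`, `c ≠ 0`. The angular component `φ ↦ c` is a morphism from `X_m` to the
multiplicative group `𝔾`. The local monodromic motivic zeta function of `f`, normalized such that all
the arcs at the origin have the volume `1`, is the series `∑_{m ≥ 1} [X_m → 𝔾] L^(- m n) Tᵐ` with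
coefficients in the Grothendieck ring of varieties over `𝔾`, localized at `L`. The class of the total
space gives the usual motivic zeta function. -/

namespace Pool.Agent.J4H50.YZ

open Pool.Agent.N103 Pool.Agent.W574.SM Pool.Agent.W574.MO Pool.Agent.J4H46.MS Pool.Agent.J4H46.MT
open Pool.Agent.J4H50.TF Pool.Agent.J4H50.YO

open scoped Polynomial PowerSeries
open PowerSeries (C coeff X)

/-- Relative classes over the multiplicative group `𝔾`, see `TSys`, with one more operation. Below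
`c : A → 𝔾`. -/
structure CSys (M E : Type) [CommRing M] [CommRing E] [Algebra M E] (L : Mˣ) extends
    TSys M E L where
  /-- the class of `(x, u) ↦ u ^ d (c(x) + u ^ k)` on `{(x, u) ∈ A × 𝔾 | c(x) + u ^ k ≠ 0}` -/
  cz : ℕ → ℕ → E →ₗ[M] E
  /-- over `u ∈ 𝔾` the fibre of `c(x) y`, `y ∈ 𝔾`, is `A` -/
  mu_one : ∀ x, mu x 1 = algebraMap M E (tot x)
  /-- on `𝔾 × 𝔾`, with `y = c + u ^ k`: `(y, u) ↦ u ^ d y` for `y ≠ u ^ k` -/
  cz_one : ∀ d k, 1 ≤ d → 1 ≤ k → cz d k 1 = algebraMap M E ((L : M) - 1) - pc (d + k)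
  tot_cz : ∀ d k x, 1 ≤ d → 1 ≤ k → tot (cz d k x) + zr (pc k) x = ((L : M) - 1) * tot x

section Plane

variable {R : Type} [AddCommMonoid R]

/-- `RedW lf ed h a₀ n₀ a₁ n₁ Z`: as `RedZeta`, with contributions which depend on the angular
component of `u ^ a₀ v ^ a₁ h`: `Z` is the sum of

* `lf N₀ ν₀ N₁ ν₁` of a point through which there pass at most two components, with the numerical
  data `(N₀, ν₀)` and `(N₁, ν₁)` (`(N, ν) = (0, 1)` if there is no such component);
* `ed N ν P S` of the open part of an exceptional curve `E` with the numerical data `(N, ν)` and the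
  coordinate `v`: the set of the points `v ∈ ℂ ∖ S`. Here `P = P(v)` is the restriction to `E` of the
  polynomial, divided by `u ^ N`, `u = 0` the equation of `E`. -/
inductive RedW (lf : ℕ → ℕ → ℕ → ℕ → R) (ed : ℕ → ℕ → ℂ[X] → Finset ℂ → R) :
    MvPolynomial (Fin 2) ℂ → ℕ → ℕ → ℕ → ℕ → R → Prop
  | unit (h : MvPolynomial (Fin 2) ℂ) (a₀ n₀ a₁ n₁ : ℕ) (hh : MvPolynomial.constantCoeff h ≠ 0)
      (hI : a₀ ≠ 0 ∨ a₁ ≠ 0) : RedW lf ed h a₀ n₀ a₁ n₁ (lf a₀ n₀ a₁ n₁)
  | curveV (h : MvPolynomial (Fin 2) ℂ) (a₀ n₀ : ℕ) (h0 : MvPolynomial.constantCoeff h = 0)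
      (h1 : MvPolynomial.constantCoeff (MvPolynomial.pderiv 1 h) ≠ 0) :
      RedW lf ed h a₀ n₀ 0 1 (lf a₀ n₀ 1 1)
  | curveU (h : MvPolynomial (Fin 2) ℂ) (a₁ n₁ : ℕ) (h0 : MvPolynomial.constantCoeff h = 0)
      (h1 : MvPolynomial.constantCoeff (MvPolynomial.pderiv 0 h) ≠ 0) :
      RedW lf ed h 0 1 a₁ n₁ (lf a₁ n₁ 1 1)
  | blowup (h : MvPolynomial (Fin 2) ℂ) (a₀ n₀ a₁ n₁ m : ℕ) (hm : 1 ≤ m)
      (hc : ℂ → MvPolynomial (Fin 2) ℂ) (hI : MvPolynomial (Fin 2) ℂ)
      (hhc : ∀ c, MvPolynomial.aeval (chart c) h = MvPolynomial.X 0 ^ m * hc c)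
      (hhI : MvPolynomial.aeval chartI h = MvPolynomial.X 1 ^ m * hI)
      (S : Finset ℂ) (h0S : 0 ∈ S)
      (hS : ∀ c ∉ S, MvPolynomial.constantCoeff (hc c) ≠ 0)
      (Zc : ℂ → R) (ZI : R)
      (h0 : RedW lf ed (hc 0) (a₀ + a₁ + m) (n₀ + n₁) a₁ n₁ (Zc 0))
      (hcS : ∀ c ∈ S, c ≠ 0 → RedW lf ed (hc c) (a₀ + a₁ + m) (n₀ + n₁) 0 1 (Zc c))
      (hZI : RedW lf ed hI a₀ n₀ (a₀ + a₁ + m) (n₀ + n₁) ZI) :
      RedW lf ed h a₀ n₀ a₁ n₁ (ZI + ∑ c ∈ S, Zc c +
        ed (a₀ + a₁ + m) (n₀ + n₁) (Polynomial.X ^ a₁ * res0 (hc 0)) S)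

end Plane

section Ops

variable {A : Type} [CommRing A]

/-- the contribution of a point: the angular component is a monomial, with the exponents `x`, `y` in
the angular components of the equations of the divisors; `e g` is the class of `x ↦ x ^ g` -/
noncomputable def lfR (L : Aˣ) (e : ℕ → A) (x n y m : ℕ) : A⟦X⟧ :=
  C (e (Nat.gcd x y) * ((L : A) - 1) ^ (nc x y false - 1)) * (qf L x n * qf L y m)

/-- The contribution of the open part `ℂ ∖ S` of an exceptional curve. The angular component is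
`P(v) τ ^ N`; its class is `c N P`, the class of the family of the smooth projective curves with the
equations `P(v) τ ^ N = x`, minus the classes of the points over `S ∪ {∞}`. -/
noncomputable def edR (L : Aˣ) (e : ℕ → A) (c : ℕ → ℂ[X] → A) (N ν : ℕ) (P : ℂ[X])
    (S : Finset ℂ) : A⟦X⟧ :=
  C (c N P - ∑ z ∈ S, e (Nat.gcd N (P.rootMultiplicity z)) - e (Nat.gcd N P.natDegree)) * qf L N ν

/-- `∑_m x_(k m + r) Tᵐ` -/
noncomputable def sec (k r : ℕ) (x : A⟦X⟧) : A⟦X⟧ := PowerSeries.mk fun m => coeff (k * m + r) x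

/-- `x(L⁻ⁿ T ^ D)` -/
noncomputable def sb (L : Aˣ) (n D : ℕ) (x : A⟦X⟧) : A⟦X⟧ :=
  PowerSeries.mk fun e => if D ∣ e then ((L⁻¹ ^ (n * (e / D)) : Aˣ) : A) * coeff (e / D) x else 0

/-- `∑_j L^(-n ⌊j/k⌋) x_j T^(j + d ⌊j/k⌋)` -/
noncomputable def Th (L : Aˣ) (n d k : ℕ) (x : A⟦X⟧) : A⟦X⟧ :=
  ∑ r ∈ Finset.range k, X ^ r * sb L n (d + k) (sec k r x)

/-- `∑_m L^(-n m) x_(k m) T^((d + k) m)` -/
noncomputable def Sc (L : Aˣ) (n d k : ℕ) (x : A⟦X⟧) : A⟦X⟧ := sb L n (d + k) (sec k 0 x)

end Ops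

section Zeta

variable {M E : Type} [CommRing M] [CommRing E] [Algebra M E] {L : Mˣ}

/-- The contribution of a singular point `P` of the tangent cone `f_d = 0` of a germ `f` in `n`
variables, where near `P` the blowing up of the origin has coordinates `(z, y)` such that `z = 0` is
the exceptional divisor and `f = z ^ d (g(y) + z ^ k)` up to a unit; `𝓩 = ∑ a_j Tʲ` is the zeta function
of `g`. The arcs with `z = u tᵐ + ⋯`, `u ≠ 0`, have the volume `L^(-n m)` times the class of `u ∈ 𝔾`. The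
parts come from the following arcs (the volume of the unit is disregarded: it multiplies the angular
components by a constant, which does not change the classes, because `t ↦ λ t` has the same effect).

* `ord g(y) > k m`: the angular component is `u ^ (d + k)`;
* `ord g(y) = j < k m`: the angular component is `u ^ d c`, `c` the one of `g(y)`; note that
  `∑_{m > j / k} L^(-n m) T^(d m) = (L⁻ⁿ Tᵈ) ^ ⌊j / k⌋ L⁻ⁿ Tᵈ / (1 - L⁻ⁿ Tᵈ)`;
* `ord g(y) = k m` and `c + u ^ k ≠ 0`: the angular component is `u ^ d (c + u ^ k)`;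
* `ord g(y) = k m` and `c + u ^ k = 0`: here `(g(y) + z ^ k) / t^(k m)` is uniformly distributed among the
  power series in `t` without constant term. -/
noncomputable def ptM (S : CSys M E L) (n d k : ℕ) (Z : E⟦X⟧) : E⟦X⟧ :=
  C (S.pc (d + k)) * PowerSeries.map (algebraMap M E) (Sc L n d k (gtr (cm S.tot Z)) - 1)
    + qf (LE L) d n * cm (S.mu (S.pc d)) (Th (LE L) n d k Z)
    + cm (S.cz d k) (Sc (LE L) n d k Z)
    + PowerSeries.map (algebraMap M E) (cm (S.zr (S.pc k)) (Sc (LE L) n d k Z) * qf L 1 1)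

/-- The zeta function of a germ `f = f_d + ⋯` in `n` variables such that at the singular points
`P = p_i` of the tangent cone `f_d = 0` the blowing up of the origin is as in `ptM`. Here `B` is the
class of `f_d : {f_d ≠ 0} → 𝔾`, and `A` is the class of the complement of the tangent cone in the
projective space `ℙ^(n-1)`, so that `tot B = (L - 1) A`, and the class of the smooth part of the
tangent cone is `[ℙ^(n-1)] - A - ∑_i 1`. -/
noncomputable def coneM (S : CSys M E L) {ι : Type} [Fintype ι] (n d : ℕ) (B : E) (A : M)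
    (k : ι → ℕ) (Z : ι → E⟦X⟧) : E⟦X⟧ :=
  C B * qf (LE L) d n
    + PowerSeries.map (algebraMap M E)
      (C (((∑ i ∈ Finset.range n, (L : M) ^ i) - A - (Fintype.card ι : M)) * ((L : M) - 1)) *
        (qf L d n * qf L 1 1))
    + ∑ i, ptM S n d (k i) (Z i)

section Swh

variable {σ : Type} [Fintype σ]

/-- `∑_{m ≥ 1} L^(- ∑_i ⌊m w_i / D⌋) [G₀ : {G₀ ≠ 0} ∩ ℂ^I → 𝔾] Tᵐ`, `I = {i : D ∣ m w_i}`: the arcs `z`
with `D ord z_i ≥ m w_i` for all `i`, and `G₀(z₀) ≠ 0`, where `z₀` has the coordinates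
`z_i t^(- m w_i / D)` at `t = 0` for `i ∈ I`, and `0` for `i ∉ I`. Here `po I` is the class of
`G₀ : {x ∈ ℂ^I : G₀(x) ≠ 0} → 𝔾`. -/
noncomputable def swE (L : Mˣ) (w : σ → ℕ) (D : ℕ) (po : Finset σ → E) : E⟦X⟧ :=
  PowerSeries.mk fun m => if m = 0 then 0 else
    (((LE L)⁻¹ ^ (∑ i, m * w i / D) : Eˣ) : E) * po (Finset.univ.filter fun i => D ∣ m * w i)

/-- `∑_m L^(- ∑_i (⌈(m + 1) w_i / D⌉ - 1)) Tᵐ`: the volumes of the arcs `z` with
`D ord z_i ≥ (m + 1) w_i` for all `i` -/
noncomputable def swVM (L : Mˣ) (w : σ → ℕ) (D : ℕ) : M⟦X⟧ :=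
  PowerSeries.mk fun m => ((L⁻¹ ^ (∑ i, ((m + 1) * w i - 1) / D) : Mˣ) : M)

/-- The zeta function of `G₀ + g`, where `G₀` is weighted homogeneous of degree `D` for the weights
`w` with an isolated critical point, and `g` has greater weight: the arcs `z` with
`m / D ≤ min_i (ord z_i / w_i) < (m + 1) / D` which are not in the `m`-th part of `swE` have
`f(z) / tᵐ` uniformly distributed among the power series in `t` without constant term. -/
noncomputable def swZE (S : CSys M E L) (w : σ → ℕ) (D : ℕ) (po : Finset σ → E) : E⟦X⟧ :=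
  swE L w D po + PowerSeries.map (algebraMap M E)
    ((1 - (1 - X) * swVM L w D - cm S.tot (swE L w D po)) * qf L 1 1)

end Swh

/-- `TCM S σ f 𝓩`: the formal power series `f` (in the variables `σ`) vanishes at the origin, and `𝓩` is
its local monodromic motivic zeta function at the origin (normalized as above). The rules are

* `smooth`: `f = 0` is smooth: `𝓩 = ∑_{m ≥ 1} L^(-m) Tᵐ` (times the class of the identity);
* `curve`: `f` is a polynomial in two variables, without multiple factors through the origin, and the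
  zeta function is computed by blowing up points of the plane (`RedW`, `lfR`, `edR`);
* `swh`: `f = G₀ + g`, where the polynomial `G₀` is weighted homogeneous and has an isolated critical
  point at the origin, and all the terms of `g` have greater weight;
* `sum`: the Thom-Sebastiani sum `f(x) + g(y)`;
* `cone`: `f = f_d + R` in the `n` variables `Option τ`, where `f_d` is a form of degree `d ≥ 2` and
  all terms of `R` have greater degree. The points `P = p_i` of the projective space (pairwise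
  different) contain all the singular points of the tangent cone `f_d = 0`. Near `P` there are formal
  coordinates `(z, y)` of the blowing up of the origin, such that `z = 0` is the exceptional divisor
  (the blowing up is `x = z ξ(z, y)` with `ξ(0, 0) = p_i`, and the Jacobian determinant is `z ^ (n - 1)`
  up to a unit), and `f = z ^ d (g_P(y) + z ^ k_P)` up to a unit, where `k_P ≥ 1`, `n ≤ d + k_P`, and
  `g_P` is in the class. (For instance, `k_P = k` for all `P` if all terms of `R` have degree at least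
  `d + k`, and the terms of degree `d + k` do not vanish at the points `P`: superisolated and
  Lê-Yomdin singularities.) The zeta function is given by `coneM`, with the classes `A`, `B` of the
  complement of the tangent cone. It is assumed that the differential form
  `f_d ^ (- n / d) dx_1 ∧ ⋯ ∧ dx_n` is not exact on the complement of `f_d = 0` (`NonExact`), or that for
  one of the points `P` there is a de Rham functional for `g_P ^ (- n / d) dy` with the value `1`
  (`NV`);
* `ren`: other names of the variables;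
* `coord`: `f'(φ) = u f` with formal coordinates `φ` and a unit `u`. -/
inductive TCM (S : CSys M E L) : (σ : Type) → MvPowerSeries σ ℂ → E⟦X⟧ → Prop
  | smooth {σ : Type} [Finite σ] (f : MvPowerSeries σ ℂ) (h0 : MvPowerSeries.constantCoeff f = 0)
      (i : σ) (h1 : MvPowerSeries.coeff (Finsupp.single i 1) f ≠ 0) :
      TCM S σ f (qf (LE L) 1 1)
  | curve (F : MvPolynomial (Fin 2) ℂ) (hF : F ≠ 0) (h0 : MvPolynomial.constantCoeff F = 0)
      (Z : E⟦X⟧) (hZ : RedW (lfR (LE L) S.pc) (edR (LE L) S.pc S.cl) F 0 1 0 1 Z) :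
      TCM S (Fin 2) (F : MvPowerSeries (Fin 2) ℂ) Z
  | swh {σ : Type} [Fintype σ] [Nonempty σ] (G0 : MvPolynomial σ ℂ) (g : MvPowerSeries σ ℂ)
      (w : σ → ℕ) (D : ℕ) (hw : ∀ i, 0 < w i) (hD : 0 < D) (hG0 : G0.IsWeightedHomogeneous w D)
      (hg : OrdF w (D + 1) g) (h0 : ∀ i, MvPolynomial.coeff (Finsupp.single i 1) G0 = 0)
      (h1 : ∀ i, MvPowerSeries.coeff (Finsupp.single i 1) g = 0)
      (hz : ∀ z : σ → ℂ, (∀ i, MvPolynomial.eval z (MvPolynomial.pderiv i G0) = 0) → z = 0)
      (po : Finset σ → E) :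
      TCM S σ ((G0 : MvPowerSeries σ ℂ) + g) (swZE S w D po)
  | sum {σ τ : Type} [Finite σ] [Finite τ] (f : MvPowerSeries σ ℂ) (g : MvPowerSeries τ ℂ)
      (Z Z' : E⟦X⟧) (hf : TCM S σ f Z) (hg : TCM S τ g Z') :
      TCM S (σ ⊕ τ) (MvPowerSeries.rename Sum.inl f + MvPowerSeries.rename Sum.inr g)
        (tsm S.toTSys Z Z')
  | cone {τ ι : Type} [Fintype τ] [DecidableEq τ] [Fintype ι] (d : ℕ) (hd : 2 ≤ d)
      (f0 : MvPolynomial (Option τ) ℂ) (hf0 : f0.IsHomogeneous d) (hf00 : f0 ≠ 0)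
      (R : MvPowerSeries (Option τ) ℂ) (hR : OrdF (fun _ => 1) (d + 1) R)
      (p : ι → Option τ → ℂ) (hp : ∀ i j, i ≠ j → ∀ c : ℂ, p i ≠ c • p j)
      (hsing : ∀ x : Option τ → ℂ, x ≠ 0 →
        (∀ l, MvPolynomial.eval x (MvPolynomial.pderiv l f0) = 0) → ∃ i, ∃ c : ℂ, x = c • p i)
      (k : ι → ℕ) (hk : ∀ i, 1 ≤ k i) (hn : ∀ i, Fintype.card τ + 1 ≤ d + k i)
      (ξ : ι → Option τ → MvPowerSeries (Option τ) ℂ)
      (hξ : ∀ i l, MvPowerSeries.constantCoeff (ξ i l) = p i l)
      (J U : ι → MvPowerSeries (Option τ) ℂ) (hJu : ∀ i, IsUnit (J i)) (hU : ∀ i, IsUnit (U i))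
      (hJ : ∀ i, (Matrix.of fun l m => MvPowerSeries.pderiv ℂ m (MvPowerSeries.X none * ξ i l)).det =
        MvPowerSeries.X none ^ Fintype.card τ * J i)
      (g : ι → MvPowerSeries τ ℂ) (Z : ι → E⟦X⟧) (hg : ∀ i, TCM S τ (g i) (Z i))
      (hf : ∀ i, MvPowerSeries.subst (fun l => MvPowerSeries.X none * ξ i l)
          ((f0 : MvPowerSeries (Option τ) ℂ) + R) =
        U i * (MvPowerSeries.X none ^ d *
          (MvPowerSeries.rename some (g i) + MvPowerSeries.X none ^ k i)))
      (B : E) (A : M) (hB : S.tot B = ((L : M) - 1) * A)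
      (hA : NonExact f0 (-((Fintype.card τ + 1 : ℕ) : ℂ) / d) ∨
        ∃ i, NV (g i) (-((Fintype.card τ + 1 : ℕ) : ℂ) / d) ∧ Sing (g i)) :
      TCM S (Option τ) ((f0 : MvPowerSeries (Option τ) ℂ) + R)
        (coneM S (Fintype.card τ + 1) d B A k Z)
  | ren {σ τ : Type} [Finite σ] (ε : σ ≃ τ) (f : MvPowerSeries σ ℂ) (Z : E⟦X⟧)
      (hf : TCM S σ f Z) : TCM S τ (MvPowerSeries.rename ε f) Z
  | coord {σ : Type} [Fintype σ] [DecidableEq σ] (f f' : MvPowerSeries σ ℂ) (Z : E⟦X⟧)
      (hf : TCM S σ f Z) (φ : σ → MvPowerSeries σ ℂ) (u : MvPowerSeries σ ℂ) (hφ : IsCo φ)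
      (hu : IsUnit u) (h : MvPowerSeries.subst φ f' = u * f) : TCM S σ f' Z

end Zeta

end Pool.Agent.J4H50.YZ
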