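import Pool.Agent.J4H50.YZ.Z8
import Pool.Agent.J4H50.YM.Fin
import Pool.Agent.J4H46.MS.Good

set_option autoImplicit false
set_option linter.unusedSectionVars false
set_option linter.unusedVariables false
set_option linter.unusedSimpArgs false

/-! # The motivic monodromy conjecture for germs with a given tangent cone -/

namespace Pool.Agent.J4H50.YZ

open Pool.Agent.N103 Pool.Agent.W574.SM Pool.Agent.W574.MO Pool.Agent.J4H46.MS Pool.Agent.J4H46.MT
open Pool.Agent.J4H50.TF Pool.Agent.J4H50.YO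
open Pool.Agent.J4H46.MQ (map_den ll Xcancel qq11)
open Pool.Agent.Y229.PS (IsFormalBFunction)
open Pool.Agent.J4H50.YM (den_mono)

open scoped Polynomial PowerSeries
open PowerSeries (C coeff X)

variable {M E : Type} [CommRing M] [CommRing E] [Algebra M E] {L : Mˣ} {S : CSys M E L}

/-- the properties of the zeta functions -/
structure GoodE (S : CSys M E L) {σ : Type} (f : MvPowerSeries σ ℂ) (Z : E⟦X⟧) : Prop where
  ne : f ≠ 0
  zero : MvPowerSeries.constantCoeff f = 0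
  dec : DecE S (KN f) Z

theorem DecE.mono {K K' : ℕ → ℕ → Prop} (h : ∀ a n, 1 ≤ a → 1 ≤ n → K a n → K' a n)
    {Z : E⟦X⟧} (hZ : DecE S K Z) : DecE S K' Z := by
  obtain ⟨R, ρ, h1, h2, h3, h4⟩ := hZ
  exact ⟨R, ρ, h1, den_mono h h2, den_mono h h3, den_mono h h4⟩

theorem s_one : S.tot 1 = (L : M) - 1 := by
  rw [← S.pc_one]
  exact S.tot_pc 1 le_rfl

theorem decE_smooth (K : ℕ → ℕ → Prop) : DecE S K (qf (LE L) 1 1 : E⟦X⟧) := by
  refine ⟨0, qf L 1 1, ?_, Subring.zero_mem _, ?_, ?_⟩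
  · rw [zero_add, map_qf _ hι']
  · rw [qf11]
    exact qq_mem _ _
  · have h2 : gtr (cm S.tot (qf (LE L) 1 1)) - qf L 1 1 = 1 := by
      have h0 : cm S.tot (qf (LE L) 1 1) = C ((L : M) - 1) * qf L 1 1 := by
        rw [← map_qf _ (hι' (E := E))]
        ext m
        rw [coeff_cm, PowerSeries.coeff_map, Algebra.algebraMap_eq_smul_one, map_smul, s_one,
          PowerSeries.coeff_C_mul, smul_eq_mul, mul_comm]
      rw [h0]
      apply Xcancel
      have h3 := gtr_eq (C ((L : M) - 1) * qf L 1 1)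
      have h4 := qf11 (L := L)
      have h5 := ll L
      rw [qq11] at h4
      rw [map_sub, map_one] at h3 ⊢
      set l := (C (L : M) : M⟦X⟧)
      set li := (C ((L⁻¹ : Mˣ) : M) : M⟦X⟧)
      linear_combination h3 - l * h4 - (X * (qf L 1 1 + 1)) * h5
    rw [h2]
    exact Subring.one_mem _

theorem kn_sum (hSU : S_SU) {σ τ : Type} [Finite σ] [Finite τ] {f : MvPowerSeries σ ℂ}
    {g : MvPowerSeries τ ℂ} {a n b m : ℕ} (ha : 1 ≤ a) (hn : 1 ≤ n) (hb : 1 ≤ b) (hm : 1 ≤ m)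
    (h1 : KN f a n) (h2 : KN g b m) :
    KN (MvPowerSeries.rename Sum.inl f + MvPowerSeries.rename Sum.inr g :
      MvPowerSeries (σ ⊕ τ) ℂ) (b * a) (b * n + a * m) := by
  have hac : (a : ℂ) ≠ 0 := Nat.cast_ne_zero.2 (by omega)
  have hbc : (b : ℂ) ≠ 0 := Nat.cast_ne_zero.2 (by omega)
  have e : -((b * n + a * m : ℕ) : ℂ) / ((b * a : ℕ) : ℂ) = -(n : ℂ) / a + -(m : ℂ) / b := by
    push_cast
    field_simp
    ring
  refine ⟨?_, fun z hz => ?_⟩
  · rw [e]
    refine hSU f g _ _ (fun k hk => ?_) h1.2 h2.2 h1.1 h2.1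
    rw [← e, div_eq_iff (by push_cast; exact mul_ne_zero hbc hac)] at hk
    have h3 : ((b * n + a * m + k * (b * a) : ℕ) : ℂ) = 0 := by
      push_cast at hk ⊢
      linear_combination -hk
    rw [Nat.cast_eq_zero] at h3
    have h4 : 0 < b * n := Nat.mul_pos hb hn
    omega
  · rw [map_add, sing_inl h1.2 z hz, sing_inr h2.2 z hz, add_zero]

theorem goodE_cone (hNE : S_NE) (hCN : S_CN) (hZ5 : S_Z5) {τ ι : Type} [Fintype τ]
    [DecidableEq τ] [Fintype ι] (d : ℕ) (hd : 2 ≤ d)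
    (f0 : MvPolynomial (Option τ) ℂ) (hf0 : f0.IsHomogeneous d) (hf00 : f0 ≠ 0)
    (R : MvPowerSeries (Option τ) ℂ) (hR : OrdF (fun _ => 1) (d + 1) R)
    (k : ι → ℕ) (hk : ∀ i, 1 ≤ k i) (hn : ∀ i, Fintype.card τ + 1 ≤ d + k i)
    (ξ : ι → Option τ → MvPowerSeries (Option τ) ℂ)
    (J U : ι → MvPowerSeries (Option τ) ℂ) (hJu : ∀ i, IsUnit (J i)) (hU : ∀ i, IsUnit (U i))
    (hJ : ∀ i, (Matrix.of fun l m => MvPowerSeries.pderiv ℂ m (MvPowerSeries.X none * ξ i l)).det =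
      MvPowerSeries.X none ^ Fintype.card τ * J i)
    (g : ι → MvPowerSeries τ ℂ) (Z : ι → E⟦X⟧) (hg : ∀ i, GoodE S (g i) (Z i))
    (hf : ∀ i, MvPowerSeries.subst (fun l => MvPowerSeries.X none * ξ i l)
        ((f0 : MvPowerSeries (Option τ) ℂ) + R) =
      U i * (MvPowerSeries.X none ^ d *
        (MvPowerSeries.rename some (g i) + MvPowerSeries.X none ^ k i)))
    (B : E) (A : M) (hB : S.tot B = ((L : M) - 1) * A)
    (hA : NonExact f0 (-((Fintype.card τ + 1 : ℕ) : ℂ) / d) ∨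
      ∃ i, NV (g i) (-((Fintype.card τ + 1 : ℕ) : ℂ) / d) ∧ Sing (g i)) :
    GoodE S ((f0 : MvPowerSeries (Option τ) ℂ) + R) (coneM S (Fintype.card τ + 1) d B A k Z) := by
  classical
  obtain ⟨n, hnd⟩ : ∃ n, n = Fintype.card τ + 1 := ⟨_, rfl⟩
  rw [← hnd] at hA hn ⊢
  have hdc : (d : ℂ) ≠ 0 := Nat.cast_ne_zero.2 (by omega)
  have hS := cone_sing hd hf0 hR
  have hcn : ∀ (i : ι) (S s : ℂ), (k i : ℂ) * S = (n : ℂ) + (d + k i) * s → s.re < 0 →
      (∀ j : ℕ, 1 ≤ j → (n : ℂ) + d * s ≠ k i * j) → NV (g i) S → Sing (g i) →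
      NV ((f0 : MvPowerSeries (Option τ) ℂ) + R) s := by
    intro i S s h1 h2 h3 h4 h5
    refine hCN ((f0 : MvPowerSeries (Option τ) ℂ) + R) (fun l => MvPowerSeries.X none * ξ i l)
      (J i) (U i) (g i) S s d (k i) (by omega) (hk i) ?_ ?_ ?_ ?_ (hJu i) (hU i) (hJ i) (hf i) h5
      h4
    · rw [← hnd]
      push_cast
      exact h1
    · intro m hm
      rw [hm, Complex.natCast_re] at h2
      exact absurd h2 (not_lt.2 (Nat.cast_nonneg m))
    · intro j hj
      rw [← hnd]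
      exact h3 j hj
    · intro l
      rw [map_mul, MvPowerSeries.constantCoeff_X, zero_mul]
  have h1 := hS 0 (by simp)
  refine ⟨cone_ne hf0 hf00 hR, ?_, ?_⟩
  · rwa [MvPowerSeries.coeff_zero_eq_constantCoeff_apply] at h1
  refine hZ5 S n d (by omega) (by omega) B A hB k hk Z (fun i => KN (g i))
    (KN ((f0 : MvPowerSeries (Option τ) ℂ) + R)) ⟨?_, hS⟩ ?_ (fun i => (hg i).dec)
  · rcases hA with hA | ⟨i, hA, hA'⟩
    · have hcard : Fintype.card (Option τ) = n := by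
        rw [hnd]
        exact Fintype.card_option
      have h3 := hNE d f0 R (by omega) hf0 hf00 hR (by rw [hcard]; exact hA)
      rw [hcard] at h3
      exact h3
    · refine hcn i _ _ ?_ ?_ ?_ hA hA'
      · field_simp
        ring
      · rw [neg_div]
        exact re_div (by omega) (by omega)
      · intro j hj hcon
        have h5 : ((k i * j : ℕ) : ℂ) = 0 := by
          push_cast
          rw [← hcon]
          field_simp
          ring
        have h6 : k i * j = 0 := by exact_mod_cast h5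
        have h7 := Nat.mul_pos (lt_of_lt_of_le Nat.zero_lt_one (hk i)) (by omega : 0 < j)
        omega
  · rintro i a m ha hm ⟨hK, hK'⟩
    refine ⟨?_, hS⟩
    have hki := hk i
    have hac : (a : ℂ) ≠ 0 := Nat.cast_ne_zero.2 (by omega)
    have hd1 : ((d : ℂ) + (k i : ℂ)) ≠ 0 := by
      have : ((d + k i : ℕ) : ℂ) ≠ 0 := Nat.cast_ne_zero.2 (by omega)
      rwa [Nat.cast_add] at this
    refine hcn i _ _ ?_ ?_ ?_ hK hK'
    · push_cast
      field_simp
      ring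
    · rw [neg_div]
      refine re_div ?_ ?_
      · have h9 := Nat.mul_pos (lt_of_lt_of_le Nat.zero_lt_one hki) (lt_of_lt_of_le Nat.zero_lt_one hm)
        exact Nat.add_pos_left h9 _
      · exact Nat.mul_pos (Nat.add_pos_right _ (lt_of_lt_of_le Nat.zero_lt_one hki))
          (lt_of_lt_of_le Nat.zero_lt_one ha)
    · intro j hj hcon
      -- `(d + k) k j a + d k m = k n a`
      have h5 : ((k i * ((d + k i) * a * j + d * m) : ℕ) : ℂ) = ((k i * (n * a) : ℕ) : ℂ) := by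
        push_cast at hcon ⊢
        field_simp at hcon
        linear_combination -hcon
      have h6 : k i * ((d + k i) * a * j + d * m) = k i * (n * a) := by exact_mod_cast h5
      have h6' : (d + k i) * a * j + d * m = n * a :=
        Nat.eq_of_mul_eq_mul_left (by omega) h6
      have h7 : n * a ≤ (d + k i) * a := Nat.mul_le_mul_right a (hn i)
      have h8 : (d + k i) * a ≤ (d + k i) * a * j := Nat.le_mul_of_pos_right _ (by omega)
      have h9 : 0 < d * m := Nat.mul_pos (by omega) (by omega)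
      omega

/-- **The properties of the zeta functions of the class.** -/
theorem tcm_good (hZ1 : S_Z1) (hZ2 : S_Z2) (hZ5 : S_Z5) (hZ7 : S_Z7)
    {σ : Type} {f : MvPowerSeries σ ℂ} {Z : E⟦X⟧} (h : TCM S σ f Z) : GoodE S f Z := by
  induction h with
  | smooth f h0 i h1 =>
    refine ⟨?_, h0, decE_smooth _⟩
    rintro rfl
    rw [map_zero] at h1
    exact h1 rfl
  | curve F hF h0 Z hZ =>
    refine ⟨?_, ?_, hZ7 S hF h0 hZ⟩
    · rw [Ne, MvPolynomial.coe_eq_zero_iff]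
      exact hF
    · rw [← MvPowerSeries.coeff_zero_eq_constantCoeff_apply, MvPolynomial.coeff_coe,
        ← MvPolynomial.constantCoeff_eq, h0]
  | swh G0 g w D hw hD hG0 hg h0 h1 hz po =>
    have h2 := Pool.Agent.J4H28.YO.t_SW G0 g w D hw hD hG0 hg h0 h1 hz
    refine ⟨swhF_ne hG0 hg hz, swhF_zero hD hG0 hg, hZ2 S w D hw hD po _ ⟨?_, h2.2⟩⟩
    rw [neg_div]
    exact h2.1
  | sum f g Z Z' _ _ ihF ihG =>
    refine ⟨sumF_ne ihF.ne ihF.zero, ?_, hZ1 S _ _ _ Z Z' (fun a n b m ha hn hb hm h1 h2 =>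
      kn_sum Pool.Agent.J4H73.YO.t_SU ha hn hb hm h1 h2) ihF.dec ihG.dec⟩
    rw [map_add, MvPowerSeries.constantCoeff_rename, MvPowerSeries.constantCoeff_rename, ihF.zero,
      ihG.zero, add_zero]
  | cone d hd f0 hf0 hf00 R hR p hp hsing k hk hn ξ hξ J U hJu hU hJ g Z hg hf B A hB hA ih =>
    exact goodE_cone Pool.Agent.J4H28.YO.t_NE p_CN hZ5 d hd f0 hf0 hf00 R hR k hk hn ξ J U hJu hU hJ
      g Z ih hf B A hB hA
  | ren ε f Z _ ih =>
    refine ⟨?_, ?_, ih.dec.mono fun a n _ _ h => ⟨(Pool.Agent.J4H19.YO.t_RN ε f _).1 h.1,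
      (Pool.Agent.J4H19.YO.t_RN ε f 0).2 h.2⟩⟩
    · intro h
      apply ih.ne
      exact MvPowerSeries.rename_injective (R := ℂ) ε.toEmbedding (by rw [map_zero]; exact h)
    · rw [MvPowerSeries.constantCoeff_rename, ih.zero]
  | coord f f' Z _ φ u hφ hu h ih =>
    have hce : ∀ n, CE f' f n := by
      intro n
      exact ⟨φ, u, hφ, hu, fun m _ => by rw [h]⟩
    exact ⟨coord_ne hce ih.ne, coord_zero hce ih.zero, ih.dec.mono fun a n _ _ h' =>
      ⟨(p_CO f f' φ u _ hφ hu h).1 h'.1, (p_CO f f' φ u 0 hφ hu h).2 h'.2⟩⟩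

/-- **The local theorem.** -/
theorem tcm_local (hZ1 : S_Z1) (hZ2 : S_Z2) (hZ5 : S_Z5) (hZ7 : S_Z7)
    {N : ℕ} (f : MvPowerSeries (Fin N) ℂ) (Z : E⟦X⟧) (hZ : TCM S (Fin N) f Z)
    (b : Polynomial ℂ) (hb : IsFormalBFunction f b) :
    Z ∈ DenRing (LE L) (Kb b) ∧ cm S.tot Z ∈ DenRing L (Kb b) := by
  have hG := tcm_good hZ1 hZ2 hZ5 hZ7 hZ
  obtain ⟨R, ρ, h1, h2, h3, h4⟩ := hG.dec
  have hK : ∀ a n, 1 ≤ a → 1 ≤ n → KN f a n → Kb b a n := by
    intro a n _ _ h
    by_contra hne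
    exact Pool.Agent.J4H45.YO.t_NFE f _ h.2 h.1 (FEv_of_formal hG.ne hb hne)
  have hg : geo L 1 1 ∈ DenRing L (Kb b) :=
    geo11_mem L b (formal_root hG.ne hG.zero hb)
  have h5 : ρ = (1 - qq L 1 1) * ρ * geo L 1 1 := by
    linear_combination (-ρ) * geo_mul L le_rfl 1
  have hρ : ρ ∈ DenRing L (Kb b) := by
    rw [h5]
    exact Subring.mul_mem _ (den_mono hK h3) hg
  have hR : R ∈ DenRing (LE L) (Kb b) := den_mono hK h2
  have hZm : Z ∈ DenRing (LE L) (Kb b) := by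
    rw [h1]
    exact Subring.add_mem _ hR (map_den _ hι' hρ)
  refine ⟨hZm, ?_⟩
  have h6 := cm_mem (L := L) S.tot hZm
  rwa [LE_self] at h6

end Pool.Agent.J4H50.YZ
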