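import Pool.Agent.J4H50.YZ.Fin
import Pool.Agent.J4H50.YM.Main
import Pool.Agent.J4H18.YZ.Z1
import Pool.Agent.J4H18.YZ.Z2
import Pool.Agent.J4H28.YZ.Z3
import Pool.Agent.J4H28.YZ.Z4
import Pool.Agent.J4H45.YZ.Z5
import Pool.Agent.J4H97.YZ.Z6
import Pool.Agent.J4H17.YZ.Z7

set_option autoImplicit false

/-! # The local theorem, without hypotheses -/

namespace Pool.Agent.J4H50.YZ

open Pool.Agent.W574.MO Pool.Agent.J4H46.MS Pool.Agent.J4H46.MT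
open Pool.Agent.Y229.PS (IsFormalBFunction)
open scoped PowerSeries

variable {M E : Type} [CommRing M] [CommRing E] [Algebra M E] {L : Mˣ} {S : CSys M E L}

theorem p_Z8 : S_Z8 :=
  t_Z8 Pool.Agent.J4H19.YO.t_RN Pool.Agent.J4H2.YM.t_M2 Pool.Agent.J4H19.YM.t_M3

theorem p_Z5 : S_Z5 := Pool.Agent.J4H45.YZ.t_Z5 Pool.Agent.J4H28.YZ.t_Z3 Pool.Agent.J4H28.YZ.t_Z4

theorem p_Z7 : S_Z7 := Pool.Agent.J4H17.YZ.t_Z7 Pool.Agent.J4H97.YZ.t_Z6 p_Z8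

/-- **The local theorem.** -/
theorem tcm_local' {N : ℕ} (f : MvPowerSeries (Fin N) ℂ) (Z : E⟦X⟧) (hZ : TCM S (Fin N) f Z)
    (b : Polynomial ℂ) (hb : IsFormalBFunction f b) :
    Z ∈ DenRing (LE L) (Kb b) ∧ cm S.tot Z ∈ DenRing L (Kb b) :=
  tcm_local Pool.Agent.J4H18.YZ.t_Z1 Pool.Agent.J4H18.YZ.t_Z2 p_Z5 p_Z7 f Z hZ b hb

end Pool.Agent.J4H50.YZ
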