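import Pool.Agent.J4H50.YZ.Stm
import Pool.Agent.J4H50.YO.CuE
import Pool.Agent.J4H46.MS.EdgeM

set_option autoImplicit false

/-! # Project YZ: exact statements about plane curves -/

namespace Pool.Agent.J4H50.YZ

open Pool.Agent.N103 Pool.Agent.W574.SM Pool.Agent.W574.MO Pool.Agent.J4H46.MS Pool.Agent.J4H46.MT
open Pool.Agent.J4H50.TF Pool.Agent.J4H50.YO

open scoped Polynomial PowerSeries
open PowerSeries (C coeff X)

/-- (Z6) regularity of the contribution of a point of the plane, with weights: combine `Inv3`, `Good3`,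
`unit3`, `curveV3`, `curveU3`, `all3`, `point3` (`J4H50/YO/CuD.lean`, `CuE.lean`: reduced curves, without
weights) with `good_all`, `point_regW` (`J4H46/MS/NodeB.lean`: weights, from `edge_mult`, `spec_gmul` in
`J4H46/MS/EdgeM.lean`; use them for `κ = Empty`, `a = 1`, `g = fun _ => 1`, `t = false`, so `mg = 0`,
`ta a t = 0`). The conclusion at a node is
`∃ c0 ∈ D, ∃ c1 ∈ D, (n0 + a0 s0 = 0 → ∀ μ, OrdP (res0 h') μ → c0 = Φ (a1 + μ) n1 * e (gcd a0 (a1 + μ))) ∧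
(n1 + a1 s0 = 0 → ∀ μ, OrdP (res1 h') μ → c1 = Φ (a0 + μ) n0 * e (gcd a1 (a0 + μ))) ∧
Z - c0 * Φ a0 n0 - c1 * Φ a1 n1 ∈ D`. -/
def S_Z6 : Prop := ∀ {F : MP}, F ≠ 0 → ∀ {s0 : ℂ} {R : Type} [CommRing R] {D : Subring R}
  {Φ : ℕ → ℕ → R} {l : R} {e : ℕ → R} {cW : ℕ → ℂ[X] → R},
  Evp (FF F (fun _ : Option Empty => (1 : MP)) 1) s0 → ZData D s0 Φ l →
  (Φ 1 1 ∈ D ∨ e 1 = 0) → (∀ g, e g ∈ D) → (∀ n P, cW n P ∈ D) →
  (∀ (n : ℕ) (P : ℂ[X]), 1 ≤ n → P ≠ 0 → (spec n P).card ≤ 2 → cW n P = (l + 1) * e (gmul n P)) →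
  ∀ {Z : R}, RedW (fun x n y m => e (Nat.gcd x y) * (Φ x n * Φ y m))
    (fun N ν P S => (cW N P - ∑ z ∈ S, e (Nat.gcd N (P.rootMultiplicity z))
      - e (Nat.gcd N P.natDegree)) * Φ N ν) F 0 1 0 1 Z → Z ∈ D

/-- (Z8, helper50) the part with constant weights -/
def S_Z8 : Prop := ∀ {F : MP}, F ≠ 0 → MvPolynomial.constantCoeff F = 0 → ∀ {ρ : PowerSeries AA},
  RedW (lfR LL (fun _ => 1)) (edR LL (fun _ => 1) (fun _ _ => ((LL : AAˣ) : AA) + 1))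
    F 0 1 0 1 ρ →
  (1 - qq LL 1 1) * ρ ∈ DenRing LL (KN (F : MvPowerSeries (Fin 2) ℂ)) ∧
    gtr (C (((LL : AAˣ) : AA) - 1) * ρ) - ρ ∈ DenRing LL (KN (F : MvPowerSeries (Fin 2) ℂ))

/-- (Z7) reduced plane curves: copy of `base_case` (`J4H46/MS/Univ.lean`), with `germw_map`, `germw_rel`,
`germw_lift`, `germw_all` (`GermW.lean`) for `RedW` instead of `GermW`, `regK`, `descE`, `allK` (`Base.lean`;
`regK` from (Z6), `descE` with `KN` instead of `KE`, by `descK`), and (Z8) instead of `rho_mem`. The hypothesis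
`Evp` follows from `¬ NV` by `evp_curve` (`J4H50/YM/Cv2.lean`, with `Pool.Agent.J4H19.YO.t_RN`), and `Sing F`
from `NV` by `NV_sing` (`J4H50/YO/CuE.lean`). -/
def S_Z7 : Prop := ∀ {M E : Type} [CommRing M] [CommRing E] [Algebra M E] {L : Mˣ}
  (S : CSys M E L) {F : MP}, F ≠ 0 → MvPolynomial.constantCoeff F = 0 → ∀ {Z : E⟦X⟧},
  RedW (lfR (LE L) S.pc) (edR (LE L) S.pc S.cl) F 0 1 0 1 Z →
  DecE S (KN (F : MvPowerSeries (Fin 2) ℂ)) Z

end Pool.Agent.J4H50.YZ
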