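import Pool.Agent.J4H50.YZ.Stm2
import Pool.Agent.J4H50.YM.Cv2
import Pool.Agent.J4H46.MS.Base

set_option autoImplicit false
set_option linter.unusedSectionVars false
set_option linter.unusedVariables false
set_option linter.unusedSimpArgs false

/-! # Reduced plane curves: constant weights -/

namespace Pool.Agent.J4H50.YZ

attribute [-instance] HahnSeries.powerSeriesAlgebra

open Pool.Agent.N103 Pool.Agent.W574.SM Pool.Agent.W574.MO Pool.Agent.J4H46.MS Pool.Agent.J4H46.MT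
open Pool.Agent.J4H50.TF Pool.Agent.J4H50.YO
open Pool.Agent.J4H50.YM (S_M2 S_M3 LL_sub_ne div_LL one_sub_X_ne vol_mul evp_curve regM)
open Polynomial

theorem redw_zeta {h' : MP} {a0 n0 a1 n1 : ℕ} {ρ : PowerSeries AA}
    (hZ : RedW (lfR LL (fun _ => 1)) (edR LL (fun _ => 1) (fun _ _ => ((LL : AAˣ) : AA) + 1))
      h' a0 n0 a1 n1 ρ) :
    RedZeta (mf LL) (PowerSeries.C ((LL : AAˣ) : AA)) h' a0 n0 a1 n1
      (PowerSeries.C (((LL : AAˣ) : AA) - 1) * ρ) := by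
  have key : ∀ x n y m : ℕ, x ≠ 0 ∨ y ≠ 0 → PowerSeries.C (((LL : AAˣ) : AA) - 1) *
      lfR LL (fun _ => 1) x n y m = mf LL x n * mf LL y m := by
    intro x n y m h
    have h1 := kap_lfM LL (a := 1) le_rfl (x := x) (y := y) (t := false)
      (h.elim Or.inl fun h => Or.inr (Or.inl h)) n m
    have h2 : lfR LL (fun _ => (1 : AA)) x n y m = lfM LL 1 x n y m false := by
      rw [lfR, lfM, one_mul]
      simp [typeFactor]
    rw [h2, h1]
    simp [typeFactor]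
  induction hZ with
  | unit h' a0 n0 a1 n1 hh hI =>
    rw [key _ _ _ _ hI]
    exact RedZeta.unit h' a0 n0 a1 n1 hh
  | curveV h' a0 n0 h0 h1 =>
    rw [key _ _ _ _ (Or.inr one_ne_zero)]
    exact RedZeta.curveV h' a0 n0 h0 h1
  | curveU h' a1 n1 h0 h1 =>
    rw [key _ _ _ _ (Or.inr one_ne_zero)]
    exact RedZeta.curveU h' a1 n1 h0 h1
  | blowup h' a0 n0 a1 n1 m hm hc hI hhc hhI S h0S hS Zc ZI hz0 hcS hZI ih0 ihc ihI =>
    have h1 := RedZeta.blowup h' a0 n0 a1 n1 m hm hc hI hhc hhI S h0S hS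
      (fun c => PowerSeries.C (((LL : AAˣ) : AA) - 1) * Zc c) _ ih0 ihc ihI
    convert h1 using 1
    rw [mf_qf LL _ _ (by omega : a0 + a1 + m ≠ 0), edR, Finset.sum_const, nsmul_eq_mul, mul_one,
      mul_add, mul_add, Finset.mul_sum]
    simp only [map_sub, map_add, map_one, map_natCast]
    ring

theorem rho_curve (hRN : S_RN) (hM2 : S_M2) (hM3 : S_M3) {F : MP} (hF : F ≠ 0)
    (h0 : MvPolynomial.constantCoeff F = 0) {Z0 ρ : PowerSeries AA}
    (hZ0 : RedZeta (mf LL) (PowerSeries.C ((LL : AAˣ) : AA)) F 0 1 0 1 Z0)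
    (hρ : Z0 = PowerSeries.C (((LL : AAˣ) : AA) - 1) * ρ) :
    (1 - qq LL 1 1) * ρ ∈ DenRing LL (KN (F : MvPowerSeries (Fin 2) ℂ)) ∧
      Pool.Agent.J4H50.YM.vol Z0 - ρ ∈ DenRing LL (KN (F : MvPowerSeries (Fin 2) ℂ)) := by
  classical
  set G : ℕ → ℕ → Prop := fun a n => NV (F : MvPowerSeries (Fin 2) ℂ) (-(n : ℂ) / a) with hG
  -- the denominators of `(1 - L⁻¹ T) Z`
  have hW : (1 - qq LL 1 1) * Z0 ∈ DenRing LL G := by
    have hT : (1 - qq LL 1 1) * Z0 ∈ DenRing LL (fun _ _ => True) :=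
      Subring.mul_mem _ (Subring.sub_mem _ (Subring.one_mem _) (qq_mem _ _))
        (hM2 LL hZ0 le_rfl le_rfl)
    obtain ⟨s, hs, Q, hQ⟩ := exists_denom hT
    refine descent G _ s (fun p hp => ⟨(hs p hp).1, (hs p hp).2.1⟩) ?_ Q hQ
    intro a' n ha' hn hne
    have hac : (a' : ℂ) ≠ 0 := Nat.cast_ne_zero.2 (by omega)
    have h2 := regM (L := LL) hF (evp_curve hRN hne) hZ0
    refine Subring.closure_mono (Set.union_subset_union_right _ ?_) h2
    rintro u ⟨a1, n1, ha1, hn1, hK, hu⟩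
    refine ⟨a1, n1, ha1, hn1, ?_, hu⟩
    intro h3
    apply hK
    have h4 : (n : ℂ) * a1 = n1 * a' := by exact_mod_cast h3
    field_simp
    linear_combination -h4
  set σ : PowerSeries AA := (1 - qq LL 1 1) * ρ with hσ
  have hWσ : (1 - qq LL 1 1) * Z0 = PowerSeries.C (((LL : AAˣ) : AA) - 1) * σ := by
    rw [hσ, hρ]
    ring
  rw [hWσ] at hW
  obtain ⟨s, hs, P, hP⟩ := div_LL hW
  have hσm : σ ∈ DenRing LL G := mem_of_denom s hs P hP
  -- the value at `T = 1`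
  obtain ⟨P3, Q3, hQ3, hQ3n, hP3⟩ := hM3 hZ0 le_rfl le_rfl (fun _ => rfl) (fun _ => rfl)
  have hP3' : P3.eval 1 = Q3.eval 1 := by
    have h1 : (((LL : AAˣ) : AA) - 1) ^ 2 ≠ 0 := pow_ne_zero _ LL_sub_ne
    apply mul_left_cancel₀ h1
    rw [← hP3]
    ring
  set li : AA := ((LL⁻¹ : AAˣ) : AA) with hli
  have hLi : ((LL : AAˣ) : AA) * li = 1 := by
    rw [hli, ← Units.val_mul, mul_inv_cancel, Units.val_one]
  have hqq : (1 - qq LL 1 1 : PowerSeries AA) = ((1 - C li * X : AA[X]) : PowerSeries AA) := by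
    rw [qq, pow_one, pow_one]
    simp [hli]
  have e1 : Q3 * (C (((LL : AAˣ) : AA) - 1) * P) = dprod s * ((1 - C li * X) * P3) := by
    apply Polynomial.coe_injective
    rw [Polynomial.coe_mul, Polynomial.coe_mul, Polynomial.coe_mul, Polynomial.coe_mul, ← hqq,
      Polynomial.coe_C, ← hP, ← hQ3]
    linear_combination (-(Q3 : PowerSeries AA) * (dprod s : PowerSeries AA)) * hWσ
  have e2 := congrArg (fun p : AA[X] => p.eval 1) e1
  simp only [eval_mul, eval_sub, eval_one, eval_C, eval_X, mul_one] at e2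
  rw [hP3'] at e2
  have e3 : ((LL : AAˣ) : AA) * P.eval 1 = (dprod s).eval 1 := by
    have h1 : Q3.eval 1 * (((LL : AAˣ) : AA) - 1) ≠ 0 := mul_ne_zero hQ3n LL_sub_ne
    apply mul_left_cancel₀ h1
    linear_combination ((LL : AAˣ) : AA) * e2 - (dprod s).eval 1 * Q3.eval 1 * hLi
  -- `δ = vol Z - ρ`
  set δ : PowerSeries AA := Pool.Agent.J4H50.YM.vol Z0 - ρ with hδ
  have e4 : (1 - PowerSeries.X) * δ = 1 - PowerSeries.C ((LL : AAˣ) : AA) * σ := by
    have h1 := vol_mul Z0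
    have h2 : PowerSeries.C ((LL : AAˣ) : AA) * qq LL 1 1 = (PowerSeries.X : PowerSeries AA) := by
      rw [qq, pow_one, pow_one, ← mul_assoc, ← map_mul, hLi, map_one, one_mul]
    have h3 : PowerSeries.C (((LL : AAˣ) : AA) - 1) = PowerSeries.C ((LL : AAˣ) : AA) - 1 := by
      rw [map_sub, map_one]
    rw [h3] at hρ
    rw [hδ, hσ]
    linear_combination h1 - hρ - ρ * h2
  set N : AA[X] := dprod s - C ((LL : AAˣ) : AA) * P with hN
  have e5 : (1 - PowerSeries.X) * ((dprod s : PowerSeries AA) * δ) = (N : PowerSeries AA) := by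
    rw [hN, Polynomial.coe_sub, Polynomial.coe_mul, Polynomial.coe_C, ← hP]
    linear_combination (dprod s : PowerSeries AA) * e4
  have e6 : N.IsRoot 1 := by
    rw [IsRoot, hN, eval_sub, eval_mul, eval_C, e3, sub_self]
  obtain ⟨N', hN'⟩ := dvd_iff_isRoot.2 e6
  have e7 : (dprod s : PowerSeries AA) * δ = ((-N' : AA[X]) : PowerSeries AA) := by
    apply mul_left_cancel₀ one_sub_X_ne
    rw [e5, hN', map_one, Polynomial.coe_mul, Polynomial.coe_sub, Polynomial.coe_X,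
      Polynomial.coe_one, Polynomial.coe_neg]
    ring
  have hδm : δ ∈ DenRing LL G := mem_of_denom s hs _ e7
  have hmono : ∀ {x : PowerSeries AA}, x ∈ DenRing LL G →
      x ∈ DenRing LL (KN (F : MvPowerSeries (Fin 2) ℂ)) := by
    intro x hx
    refine Subring.closure_mono (Set.union_subset_union_right _ ?_) hx
    rintro u ⟨a1, n1, ha1, hn1, hK, hu⟩
    refine ⟨a1, n1, ha1, hn1, ⟨hK, NV_sing _ _ ?_ hK⟩, hu⟩
    rw [← MvPowerSeries.coeff_zero_eq_constantCoeff_apply, MvPolynomial.coeff_coe,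
      ← MvPolynomial.constantCoeff_eq, h0]
  exact ⟨hmono hσm, hmono hδm⟩

/-- (Z8) -/
theorem t_Z8 (hRN : S_RN) (hM2 : S_M2) (hM3 : S_M3) : S_Z8 := by
  intro F hF h0 ρ hZ
  obtain ⟨h1, h2⟩ := rho_curve hRN hM2 hM3 hF h0 (redw_zeta hZ) rfl
  refine ⟨h1, ?_⟩
  have h3 : gtr (PowerSeries.C (((LL : AAˣ) : AA) - 1) * ρ) =
      Pool.Agent.J4H50.YM.vol (PowerSeries.C (((LL : AAˣ) : AA) - 1) * ρ) := by
    apply mul_left_cancel₀ one_sub_X_ne
    rw [vol_mul]
    exact Pool.Agent.J4H46.MS.gtr_eq _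
  rw [h3]
  exact h2

end Pool.Agent.J4H50.YZ
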